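import Mathlib
import Pool.Agent.H.MP_27f8b5_an.A

namespace Pool.Agent.Results.MP_ec348e_an.Yes

open Filter Topology MonoidAlgebra Pool.Agent.H.MP_27f8b5_an

/-- the discrete group S₃ × ℤ -/
abbrev Γ := Equiv.Perm (Fin 3) × Multiplicative ℤ

/-- integral of a function against a finitely supported measure -/
noncomputable def int (μ : MonoidAlgebra ℂ Γ) (φ : Γ → ℂ) : ℂ := μ.coeff.sum fun y c => c * φ y

/-- Cesaro means of the powers 1, …, n -/
noncomputable def ces {A : Type*} [Ring A] [Algebra ℂ A] (a : A) (n : ℕ) : A :=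
  (n : ℂ)⁻¹ • ∑ k ∈ Finset.range n, a ^ (k + 1)

/-- square summable functions -/
noncomputable abbrev L2 : Type := lp (fun _ : Γ => ℂ) 2

/-- T is left convolution by μ -/
def Conv (μ : MonoidAlgebra ℂ Γ) (T : L2 → L2) : Prop :=
  ∀ f x, T f x = int μ fun y => f (y⁻¹ * x)

/-- mean ergodic operator -/
def ME {X : Type} [NormedAddCommGroup X] [NormedSpace ℂ X] (T : X →L[ℂ] X) : Prop :=
  ∃ P : X →L[ℂ] X, ∀ f, Tendsto (fun n => ces T n f) atTop (𝓝 (P f))

theorem form (n : ℕ) : ∑ k ∈ Finset.range n, (single u 1 + β * (1 - single u 1)) ^ (k + 1) =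
    ∑ k ∈ Finset.range n, single u 1 ^ (k + 1) + ∑ k ∈ Finset.range n, β * single u 1 ^ k -
      n • (β * single u 1 ^ n) := by
  have c1 : Commute (single u (1 : ℂ)) (1 - single u 1) :=
    (Commute.one_right _).sub_right (Commute.refl _)
  have c2 : Commute (1 - single u (1 : ℂ)) β := (Commute.one_left _).sub_left uβ
  induction n with
  | zero => simp
  | succ n ih =>
    rw [Finset.sum_range_succ, Finset.sum_range_succ, Finset.sum_range_succ, ih,
      pw (uβ.mul_right c1) (by rw [mul_assoc, ← mul_assoc _ β, c2.eq, ← mul_assoc, ← mul_assoc, β2,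
        zero_mul, zero_mul]), ← mul_assoc, (uβ.pow_left n).eq, mul_assoc, mul_sub, mul_one,
      ← pow_succ, mul_sub, smul_sub, add_smul n 1 (β * single u 1 ^ n), one_smul]
    abel

noncomputable def Φ (φ : Γ → ℂ) : MonoidAlgebra ℂ Γ →ₗ[ℂ] ℂ :=
  Finsupp.linearCombination ℂ φ ∘ₗ (coeffLinearEquiv ℂ).toLinearMap

theorem result : ∃ (μ μc : MonoidAlgebra ℂ Γ) (T : L2 →L[ℂ] L2), Conv μ T ∧
    (∀ φ : Γ → ℂ, Tendsto φ cofinite (𝓝 0) →
      Tendsto (fun n => int (ces μ n) φ) atTop (𝓝 (int μc φ))) ∧ ¬ ME T := by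
  have vag : ∀ φ : Γ → ℂ, Tendsto φ cofinite (𝓝 0) →
      Tendsto (fun n => int (ces (single u 1 + β * (1 - single u 1)) n) φ) atTop (𝓝 0) := by
    intro φ hφ
    have e : ∀ ν, int ν φ = Φ φ ν := fun ν => rfl
    have e1 : ∀ g, Φ φ (single g 1) = φ g := fun g => by simp [Φ]
    have a := fun g => hφ.comp (inj g)
    have b : Tendsto (fun k : ℕ => Φ φ (β * single u 1 ^ k)) atTop (𝓝 0) := by
      simp only [βu, map_sub, map_add, e1]
      simpa using ((a _).add (a _)).sub ((a _).add (a _))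
    have c : Tendsto (fun k : ℕ => Φ φ (single u 1 ^ (k + 1))) atTop (𝓝 0) := by
      simp only [single_pow, one_pow, e1]
      simp only [pow_succ']
      exact a u
    have := (c.cesaro_smul.add b.cesaro_smul).sub b
    rw [add_zero, sub_zero] at this
    refine this.congr' ?_
    filter_upwards [eventually_gt_atTop 0] with n hn
    have : (n : ℂ) ≠ 0 := by exact_mod_cast hn.ne'
    rw [e, ces, form, map_smul, map_sub, map_nsmul]
    simp only [map_add, map_sum, smul_eq_mul, nsmul_eq_mul,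
      Complex.real_smul, Complex.ofReal_inv, Complex.ofReal_natCast]
    field_simp
  refine ⟨single u 1 + β * (1 - single u 1), 0, Λ (single u 1 + β * (1 - single u 1)),
    Λ_apply _, vag, fun ⟨P, h⟩ => ?_⟩
  have hg := h (lp.single 2 1 1)
  generalize P (lp.single 2 1 1) = g at hg
  have e : ∀ n, ces (Λ (single u 1 + β * (1 - single u 1))) n =
      Λ (ces (single u 1 + β * (1 - single u 1)) n) := fun n => by
    simp only [ces, map_smul, map_sum, map_pow]
  simp only [e] at hg
  have g0 : g = 0 := by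
    ext x
    have h1 := ((lp.evalCLM ℂ (fun _ : Γ => ℂ) 2 x).continuous.tendsto g).comp hg
    refine tendsto_nhds_unique h1 ((vag (fun y => (lp.single 2 1 1 : E) (y⁻¹ * x)) ?_).congr
      fun n => (Λ_apply _ _ _).symm)
    refine tendsto_const_nhds.congr' ?_
    filter_upwards [(Set.finite_singleton x).compl_mem_cofinite] with y hy
    exact (lp.single_apply_ne (E := fun _ : Γ => ℂ) _ _ _ fun e => hy (inv_mul_eq_one.1 e)).symm
  rw [g0, tendsto_zero_iff_norm_tendsto_zero] at hg
  obtain ⟨n, h1, h2⟩ := ((hg.eventually (gt_mem_nhds one_pos)).and (eventually_gt_atTop 0)).exists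
  refine absurd ((lp.norm_apply_le_norm two_ne_zero _ (t * u ^ n)).trans_lt h1) ?_
  have : (n : ℂ) ≠ 0 := by exact_mod_cast h2.ne'
  have z : ∑ k ∈ Finset.range n, (if k = n then 1 else 0 : ℂ) = 0 := by simp
  have e2 : ∀ ν, Λ ν (lp.single 2 1 1) (t * u ^ n) =
    Φ (fun y => (lp.single 2 1 1 : E) (y⁻¹ * (t * u ^ n))) ν := fun ν => Λ_apply _ _ _
  rw [e2, ces, form, map_smul, map_sub, map_nsmul, map_add, map_sum, map_sum]
  simp only [← e2, ev, ev0, z]
  simp [this]

end Pool.Agent.Results.MP_ec348e_an.Yes
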